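import Pool.Agent.Work.MP_909527_an_helper82.S1

/-!
# MP_909527_an, block S: explicit subsolutions
-/

set_option autoImplicit false

open MeasureTheory Set Filter Topology
open scoped ContDiff InnerProductSpace

namespace Pool.Agent.MP909527

namespace SubS

lemma key_real {α κ K k p C γ σ y2 β w Q Lr Y h d : ℝ} (hα : 0 < α) (hκ : 0 < κ) (hp : 1 < p)
    (hC : 0 ≤ C) (hK : 0 < K) (hk : 0 < k) (hσ : 0 < σ) (hh : 0 < h) (hd : 0 < d) (hw : 0 < w)
    (hQ0 : 0 ≤ Q) (hL : 0 < Y → Lr ≤ C * w) (hQ : 0 < Y → Y < y2 → γ * w ≤ Q) (hy2 : 0 < y2)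
    (hCy : C * y2 ≤ α * γ / 4) (hβ : β = y2 ^ (α * (p - 1))) (hKC : K * k * C ≤ κ ^ p * β / 2)
    (hσ1 : κ * max 1 α * σ ≤ K * k * (α * γ / 4)) (hσ2 : κ * max 1 α * σ ≤ κ ^ p * β / 2 * y2) :
    w * (κ * (max Y 0) ^ α - κ * (max (Y - σ * h) 0) ^ α) ≤
      h * (K * k * (G' α d Y * Q - G α d Y * Lr) + w * (κ * (max Y 0) ^ α) ^ p)
        + d ^ α * (κ + h * (K * k * C)) * w := by
  have hdα : 0 < d ^ α := Real.rpow_pos_of_pos hd _
  rcases le_or_gt Y 0 with hY | hY
  · have h1 : max Y 0 = 0 := max_eq_right hY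
    have h2 : max (Y - σ * h) 0 = 0 := max_eq_right (by nlinarith [mul_pos hσ hh])
    rw [h1, h2, G'_of_nonpos hα hY, G_of_nonpos hα hY, Real.zero_rpow hα.ne', mul_zero,
      Real.zero_rpow (by linarith)]
    have : 0 ≤ d ^ α * (κ + h * (K * k * C)) * w := by positivity
    simpa using this
  · have hL' := hL hY
    rw [max_eq_left hY.le]
    set z : ℝ := max (Y - σ * h) 0 with hz
    have hz0 : 0 ≤ z := le_max_right _ _
    have hzY : z ≤ Y := max_le (by nlinarith [mul_pos hσ hh]) hY.le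
    have hYz : Y - σ * h ≤ z := le_max_left _ _
    have hYα : 0 < Y ^ α := Real.rpow_pos_of_pos hY _
    have hzα : 0 ≤ z ^ α := Real.rpow_nonneg hz0 _
    have hvp : 0 ≤ (κ * Y ^ α) ^ p := Real.rpow_nonneg (by positivity) _
    have hG0 := G_nonneg α d Y
    have hG'0 := G'_nonneg (d := d) hα Y
    have hGle := G_le hα hd Y
    rw [max_eq_left hY.le] at hGle
    have hGL : G α d Y * Lr ≤ Y ^ α * (C * w) := by
      calc G α d Y * Lr ≤ G α d Y * (C * w) := by gcongr
        _ ≤ Y ^ α * (C * w) := by gcongr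
    rcases lt_or_ge Y d with hYd | hYd
    · -- small values
      have h1 : Y ^ α ≤ d ^ α := Real.rpow_le_rpow hY.le hYd.le hα.le
      have h2 : w * (κ * Y ^ α - κ * z ^ α) ≤ d ^ α * κ * w := by
        have : κ * Y ^ α - κ * z ^ α ≤ κ * d ^ α := by nlinarith [mul_nonneg hκ.le hzα]
        calc w * (κ * Y ^ α - κ * z ^ α) ≤ w * (κ * d ^ α) := by gcongr
          _ = d ^ α * κ * w := by ring
      have h3 : G α d Y * Lr ≤ d ^ α * (C * w) := hGL.trans (by gcongr)
      have h4 : 0 ≤ G' α d Y * Q := by positivity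
      have h5 : -(d ^ α * (C * w)) ≤ G' α d Y * Q - G α d Y * Lr := by linarith
      have h6 : K * k * (-(d ^ α * (C * w))) ≤ K * k * (G' α d Y * Q - G α d Y * Lr) := by
        gcongr
      have h7 : 0 ≤ w * (κ * Y ^ α) ^ p := by positivity
      have h8 : h * (K * k * (-(d ^ α * (C * w)))) ≤
          h * (K * k * (G' α d Y * Q - G α d Y * Lr) + w * (κ * Y ^ α) ^ p) := by
        gcongr
        linarith
      nlinarith
    · -- main part
      have hY1 : 0 < Y ^ (α - 1) := Real.rpow_pos_of_pos hY _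
      have hYY : Y ^ α = Y ^ (α - 1) * Y := by
        rw [Real.rpow_sub hY, Real.rpow_one]
        field_simp
      have hinc := rpow_sub_le hα hY hz0 hzY hYz
      have hlhs : w * (κ * Y ^ α - κ * z ^ α) ≤ h * (w * Y ^ (α - 1) * (κ * max 1 α * σ)) := by
        calc w * (κ * Y ^ α - κ * z ^ α) = w * κ * (Y ^ α - z ^ α) := by ring
          _ ≤ w * κ * (max 1 α * (σ * h) * Y ^ (α - 1)) := by gcongr
          _ = h * (w * Y ^ (α - 1) * (κ * max 1 α * σ)) := by ring
      have herr : 0 ≤ d ^ α * (κ + h * (K * k * C)) * w := by positivity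
      suffices hmain : w * Y ^ (α - 1) * (κ * max 1 α * σ) ≤
          K * k * (G' α d Y * Q - G α d Y * Lr) + w * (κ * Y ^ α) ^ p by
        calc w * (κ * Y ^ α - κ * z ^ α) ≤ h * (w * Y ^ (α - 1) * (κ * max 1 α * σ)) := hlhs
          _ ≤ h * (K * k * (G' α d Y * Q - G α d Y * Lr) + w * (κ * Y ^ α) ^ p) := by gcongr
          _ ≤ _ := by linarith
      rcases lt_or_ge Y y2 with hYy | hYy
      · -- gradient term dominates
        have hQ' := hQ hY hYy
        have hG' := G'_ge hα hd hYd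
        have h1 : α / 2 * Y ^ (α - 1) * (γ * w) ≤ G' α d Y * Q := by
          have hγw : 0 ≤ γ * w ∨ γ * w < 0 := le_or_gt 0 (γ * w)
          rcases hγw with h0 | h0
          · gcongr
          · have : α / 2 * Y ^ (α - 1) * (γ * w) ≤ 0 :=
              mul_nonpos_of_nonneg_of_nonpos (by positivity) h0.le
            exact this.trans (by positivity)
        have h2 : Y ^ α * (C * w) ≤ α * γ / 4 * Y ^ (α - 1) * w := by
          have : Y * C ≤ α * γ / 4 := by
            have : Y * C ≤ y2 * C := by gcongr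
            linarith
          calc Y ^ α * (C * w) = (Y * C) * (Y ^ (α - 1) * w) := by rw [hYY]; ring
            _ ≤ α * γ / 4 * (Y ^ (α - 1) * w) := by gcongr
            _ = _ := by ring
        have h3 : α * γ / 4 * Y ^ (α - 1) * w ≤ G' α d Y * Q - G α d Y * Lr := by
          have e1 : α / 2 * Y ^ (α - 1) * (γ * w) =
              α * γ / 4 * Y ^ (α - 1) * w + α * γ / 4 * Y ^ (α - 1) * w := by ring
          linarith
        have h4 : K * k * (α * γ / 4 * Y ^ (α - 1) * w) ≤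
            K * k * (G' α d Y * Q - G α d Y * Lr) := by gcongr
        have h5 : w * Y ^ (α - 1) * (κ * max 1 α * σ) ≤ w * Y ^ (α - 1) * (K * k * (α * γ / 4)) := by
          gcongr
        have h6 : 0 ≤ w * (κ * Y ^ α) ^ p := by positivity
        have h7 : w * Y ^ (α - 1) * (K * k * (α * γ / 4)) =
            K * k * (α * γ / 4 * Y ^ (α - 1) * w) := by ring
        linarith
      · -- reaction term dominates
        have hβ0 : 0 < β := by rw [hβ]; exact Real.rpow_pos_of_pos hy2 _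
        have hκp : 0 < κ ^ p := Real.rpow_pos_of_pos hκ _
        have h1 : β * Y ^ α ≤ (Y ^ α) ^ p := by
          have e1 : (Y ^ α) ^ p = Y ^ (α * (p - 1)) * Y ^ α := by
            rw [← Real.rpow_mul hY.le, ← Real.rpow_add hY]
            congr 1
            ring
          rw [e1, hβ]
          have hp1 : 0 ≤ α * (p - 1) := mul_nonneg hα.le (by linarith)
          gcongr
        have h2 : κ ^ p * (β * Y ^ α) ≤ (κ * Y ^ α) ^ p := by
          rw [Real.mul_rpow hκ.le hYα.le]
          gcongr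
        have h3 : 0 ≤ G' α d Y * Q := by positivity
        have h4 : -(Y ^ α * (C * w)) ≤ G' α d Y * Q - G α d Y * Lr := by linarith
        have h5 : K * k * (-(Y ^ α * (C * w))) ≤ K * k * (G' α d Y * Q - G α d Y * Lr) := by
          gcongr
        have h6 : K * k * (Y ^ α * (C * w)) ≤ κ ^ p * β / 2 * (Y ^ α * w) := by
          calc K * k * (Y ^ α * (C * w)) = K * k * C * (Y ^ α * w) := by ring
            _ ≤ κ ^ p * β / 2 * (Y ^ α * w) := by gcongr
        have h7 : w * (κ ^ p * (β * Y ^ α)) ≤ w * (κ * Y ^ α) ^ p := by gcongr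
        have h8 : κ ^ p * β / 2 * (Y ^ α * w) ≤
            K * k * (G' α d Y * Q - G α d Y * Lr) + w * (κ * Y ^ α) ^ p := by
          have e1 : w * (κ ^ p * (β * Y ^ α)) =
              κ ^ p * β / 2 * (Y ^ α * w) + κ ^ p * β / 2 * (Y ^ α * w) := by ring
          have e2 : K * k * (-(Y ^ α * (C * w))) = -(K * k * (Y ^ α * (C * w))) := by ring
          linarith
        refine le_trans ?_ h8
        have h9 : Y ^ (α - 1) * y2 ≤ Y ^ α := by
          rw [hYY]
          gcongr
        calc w * Y ^ (α - 1) * (κ * max 1 α * σ) ≤ w * Y ^ (α - 1) * (κ ^ p * β / 2 * y2) := by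
              gcongr
          _ = κ ^ p * β / 2 * (Y ^ (α - 1) * y2 * w) := by ring
          _ ≤ κ ^ p * β / 2 * (Y ^ α * w) := by gcongr

variable {N : ℕ}

/-- The inequality of `SubSol`, for one pair of times. `Y = a + σ (t - t₀) - ρ`. -/
lemma ineq_of {c : Coef N} {ρ : E N → ℝ} (hρ : ContDiff ℝ ∞ ρ) {m α κ p C γ σ y2 β aa h : ℝ}
    (hm : 1 < m) (hα' : α = 1 / (m - 1)) (hκ : 0 < κ) (hp : 1 < p) (hC : 0 ≤ C) (hσ : 0 < σ)
    (hh : 0 < h) (hL : ∀ x, 0 < aa - ρ x → c.L ρ x ≤ C * c.w x)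
    (hQ : ∀ x, 0 < aa - ρ x → aa - ρ x < y2 → γ * c.w x ≤ ⟪c.A x (gradient ρ x), gradient ρ x⟫_ℝ)
    (hy2 : 0 < y2) (hCy : C * y2 ≤ α * γ / 4) (hβ : β = y2 ^ (α * (p - 1)))
    (hKC : κ ^ m * (1 + α) * C ≤ κ ^ p * β / 2)
    (hσ1 : κ * max 1 α * σ ≤ κ ^ m * (1 + α) * (α * γ / 4))
    (hσ2 : κ * max 1 α * σ ≤ κ ^ p * β / 2 * y2)
    {ψ : E N → ℝ} (hψ : ContDiff ℝ 1 ψ) (hψc : HasCompactSupport ψ) (hψ0 : ∀ x, 0 ≤ ψ x) :
    ∫ x, c.w x * (κ * (max (aa - ρ x) 0) ^ α - κ * (max (aa - ρ x - σ * h) 0) ^ α) * ψ x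
      ≤ h * (-(∫ x, ⟪c.A x (gradient (fun y => (κ * (max (aa - ρ y) 0) ^ α) ^ m) x),
          gradient ψ x⟫_ℝ) + ∫ x, c.w x * (κ * (max (aa - ρ x) 0) ^ α) ^ p * ψ x) := by
  have hα : 0 < α := by rw [hα']; apply div_pos one_pos; linarith
  have hαm : α * m = 1 + α := by
    rw [hα']
    have : m - 1 ≠ 0 := by linarith
    field_simp
    ring
  have hρ1 : ContDiff ℝ 1 ρ := hρ.of_le (by simp)
  have hρc : Continuous ρ := hρ.continuous
  have hY : ContDiff ℝ 1 (fun x => aa - ρ x) := contDiff_const.sub hρ1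
  have hYd : Differentiable ℝ (fun x => aa - ρ x) := hY.differentiable (by simp)
  have hYc : Continuous (fun x => aa - ρ x) := hY.continuous
  set W : E N → E N := fun x => c.A x (gradient ρ x) with hWdef
  have hW : ContDiff ℝ 1 W := (c.smoothA.clm_apply (contDiff_gradient hρ)).of_le (by simp)
  have hgψ : Continuous (gradient ψ) := continuous_gradient hψ
  have hgψs : HasCompactSupport (gradient ψ) := gradient_cs hψc
  have hwc : Continuous c.w := c.smoothw.continuous
  -- the gradient of `v^m`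
  have hgrad : ∀ x, gradient (fun y => (κ * (max (aa - ρ y) 0) ^ α) ^ m) x =
      (κ ^ m * ((1 + α) * (max (aa - ρ x) 0) ^ α)) • (- gradient ρ x) := by
    intro x
    have e1 : (fun y => (κ * (max (aa - ρ y) 0) ^ α) ^ m) =
        fun y => (fun s : ℝ => κ ^ m * (max s 0) ^ (1 + α)) (aa - ρ y) := by
      ext y
      have h0 : (0:ℝ) ≤ max (aa - ρ y) 0 := le_max_right _ _
      show (κ * (max (aa - ρ y) 0) ^ α) ^ m = κ ^ m * (max (aa - ρ y) 0) ^ (1 + α)
      rw [Real.mul_rpow hκ.le (Real.rpow_nonneg h0 _), ← Real.rpow_mul h0, hαm]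
    have e2 : HasDerivAt (fun s : ℝ => κ ^ m * (max s 0) ^ (1 + α))
        (κ ^ m * ((1 + α) * (max (aa - ρ x) 0) ^ α)) (aa - ρ x) := by
      have := (hasDerivAt_pos_rpow (β := 1 + α) (by linarith) (aa - ρ x)).const_mul (κ ^ m)
      rwa [show 1 + α - 1 = α by ring] at this
    rw [e1, gradient_comp e2 (hYd x), gradient_const_sub]
  have hI1 : -(∫ x, ⟪c.A x (gradient (fun y => (κ * (max (aa - ρ y) 0) ^ α) ^ m) x),
      gradient ψ x⟫_ℝ) = κ ^ m * (1 + α) * ∫ x, (max (aa - ρ x) 0) ^ α * ⟪W x, gradient ψ x⟫_ℝ := by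
    rw [← integral_const_mul, ← integral_neg]
    congr 1
    ext x
    rw [hgrad, map_smul, map_neg, inner_smul_left, inner_neg_left]
    simp only [hWdef, conj_trivial]
    ring
  -- the regularised identity
  have hJ : ∀ d, 0 < d → ∫ x, G α d (aa - ρ x) * ⟪W x, gradient ψ x⟫_ℝ =
      ∫ x, (G' α d (aa - ρ x) * ⟪W x, gradient ρ x⟫_ℝ - G α d (aa - ρ x) * c.L ρ x) * ψ x := by
    intro d hd
    have hFc : ContDiff ℝ 1 (fun x => G α d (aa - ρ x)) := (contDiff_G hα hd).comp hY
    rw [ibp hFc hW hψ hψc, ← integral_neg]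
    congr 1
    ext x
    have e1 : gradient (fun x => G α d (aa - ρ x)) x = G' α d (aa - ρ x) • (- gradient ρ x) := by
      have := gradient_comp (hasDerivAt_G hα hd (aa - ρ x)) (hYd x)
      rw [gradient_const_sub] at this
      exact this
    rw [e1, inner_smul_left, inner_neg_left, real_inner_comm]
    simp only [conj_trivial]
    have e2 : c.L ρ x = ∑ i, fderiv ℝ (fun y => (W y) i) x (e i) := rfl
    rw [e2]
    show -((G' α d (aa - ρ x) * -⟪W x, gradient ρ x⟫_ℝ + G α d (aa - ρ x) * _) * ψ x) = _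
    ring
  -- continuity of the pieces
  have hLc : Continuous (c.L ρ) := by
    have : c.L ρ = fun x => ∑ i, fderiv ℝ (fun y => (W y) i) x (e i) := rfl
    rw [this]
    apply continuous_finsetSum
    intro i _
    exact (((contDiff_euclidean.1 hW) i).continuous_fderiv (by simp)).clm_apply continuous_const
  have hWc : Continuous W := hW.continuous
  have hQc : Continuous (fun x => ⟪W x, gradient ρ x⟫_ℝ) := hWc.inner (continuous_gradient hρ1)
  have hWψ : Continuous (fun x => ⟪W x, gradient ψ x⟫_ℝ) := hWc.inner hgψ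
  have hWψs : HasCompactSupport (fun x => ⟪W x, gradient ψ x⟫_ℝ) := by
    apply hgψs.mono
    intro x hx
    rw [Function.mem_support] at hx ⊢
    intro h0
    exact hx (by rw [h0, inner_zero_right])
  have hvc : Continuous (fun x => κ * (max (aa - ρ x) 0) ^ α) :=
    continuous_const.mul ((continuous_pos_rpow hα.le).comp hYc)
  have hzc : Continuous (fun x => κ * (max (aa - ρ x - σ * h) 0) ^ α) :=
    continuous_const.mul ((continuous_pos_rpow hα.le).comp (hYc.sub continuous_const))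
  have hyc : Continuous (fun x => (max (aa - ρ x) 0) ^ α) := (continuous_pos_rpow hα.le).comp hYc
  have hvpc : Continuous (fun x => (κ * (max (aa - ρ x) 0) ^ α) ^ p) :=
    hvc.rpow_const fun _ => Or.inr (by linarith)
  have i0 : Integrable (fun x => c.w x * (κ * (max (aa - ρ x) 0) ^ α -
      κ * (max (aa - ρ x - σ * h) 0) ^ α) * ψ x) :=
    ((hwc.mul (hvc.sub hzc)).mul hψ.continuous).integrable_of_hasCompactSupport hψc.mul_left
  have i2 : Integrable (fun x => c.w x * (κ * (max (aa - ρ x) 0) ^ α) ^ p * ψ x) :=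
    ((hwc.mul hvpc).mul hψ.continuous).integrable_of_hasCompactSupport hψc.mul_left
  have i3 : Integrable (fun x => c.w x * ψ x) :=
    (hwc.mul hψ.continuous).integrable_of_hasCompactSupport hψc.mul_left
  have iy : Integrable (fun x => (max (aa - ρ x) 0) ^ α * ⟪W x, gradient ψ x⟫_ℝ) :=
    (hyc.mul hWψ).integrable_of_hasCompactSupport hWψs.mul_left
  have hG'c : ∀ d, 0 < d → Continuous (fun x => G' α d (aa - ρ x)) := by
    intro d hd
    have : Continuous (G' α d) := by
      unfold G'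
      apply Continuous.div
      · have h1 := continuous_pos_rpow (β := α + 1) (by linarith)
        have h2 := continuous_pos_rpow (β := α + 2) (by linarith)
        exact ((continuous_const.mul h1).mul (by fun_prop)).sub (h2.mul (by fun_prop))
      · fun_prop
      · intro s
        positivity
    exact this.comp hYc
  have hGc : ∀ d, 0 < d → Continuous (fun x => G α d (aa - ρ x)) := fun d hd =>
    (contDiff_G hα hd).continuous.comp hYc
  have i1 : ∀ d, 0 < d → Integrable (fun x => (G' α d (aa - ρ x) * ⟪W x, gradient ρ x⟫_ℝ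
      - G α d (aa - ρ x) * c.L ρ x) * ψ x) := fun d hd =>
    ((((hG'c d hd).mul hQc).sub ((hGc d hd).mul hLc)).mul hψ.continuous).integrable_of_hasCompactSupport
      hψc.mul_left
  -- inequality with error
  have hineq : ∀ d, 0 < d →
      ∫ x, c.w x * (κ * (max (aa - ρ x) 0) ^ α - κ * (max (aa - ρ x - σ * h) 0) ^ α) * ψ x ≤
      h * (κ ^ m * (1 + α) * (∫ x, G α d (aa - ρ x) * ⟪W x, gradient ψ x⟫_ℝ)
        + ∫ x, c.w x * (κ * (max (aa - ρ x) 0) ^ α) ^ p * ψ x)
        + d ^ α * (κ + h * (κ ^ m * (1 + α) * C)) * ∫ x, c.w x * ψ x := by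
    intro d hd
    rw [hJ d hd]
    have ia : Integrable (fun x => κ ^ m * (1 + α) * ((G' α d (aa - ρ x) * ⟪W x, gradient ρ x⟫_ℝ
      - G α d (aa - ρ x) * c.L ρ x) * ψ x)) := (i1 d hd).const_mul _
    have iab : Integrable (fun x => κ ^ m * (1 + α) * ((G' α d (aa - ρ x) * ⟪W x, gradient ρ x⟫_ℝ
      - G α d (aa - ρ x) * c.L ρ x) * ψ x) + c.w x * (κ * (max (aa - ρ x) 0) ^ α) ^ p * ψ x) :=
      ia.add i2
    rw [← integral_const_mul, ← integral_add ia i2, ← integral_const_mul, ← integral_const_mul,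
      ← integral_add (iab.const_mul _) (i3.const_mul _)]
    apply integral_mono i0 ((iab.const_mul _).add (i3.const_mul _))
    intro x
    have hk := key_real (Q := ⟪W x, gradient ρ x⟫_ℝ) (Lr := c.L ρ x) (Y := aa - ρ x) (w := c.w x)
      (K := κ ^ m) (k := 1 + α) (d := d) (h := h)
      hα hκ hp hC (Real.rpow_pos_of_pos hκ _) (by linarith) hσ hh hd (c.wpos x)
      (by
        by_cases h0 : gradient ρ x = 0
        · rw [h0, inner_zero_right]
        · exact (c.pos x _ h0).le) (hL x) (hQ x) hy2 hCy hβ hKC hσ1 hσ2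
    have := mul_le_mul_of_nonneg_right hk (hψ0 x)
    refine this.trans (le_of_eq ?_)
    rw [Pi.add_apply]
    ring
  -- passage to the limit
  have hlim1 : Tendsto (fun d => ∫ x, G α d (aa - ρ x) * ⟪W x, gradient ψ x⟫_ℝ) (𝓝[>] 0)
      (𝓝 (∫ x, (max (aa - ρ x) 0) ^ α * ⟪W x, gradient ψ x⟫_ℝ)) := by
    apply tendsto_integral_filter_of_dominated_convergence
      (fun x => ‖(max (aa - ρ x) 0) ^ α * ⟪W x, gradient ψ x⟫_ℝ‖)
    · filter_upwards [self_mem_nhdsWithin] with d hd
      exact ((hGc d hd).mul hWψ).aestronglyMeasurable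
    · filter_upwards [self_mem_nhdsWithin] with d hd
      refine Eventually.of_forall fun x => ?_
      rw [norm_mul, norm_mul]
      apply mul_le_mul_of_nonneg_right _ (norm_nonneg _)
      rw [Real.norm_of_nonneg (G_nonneg _ _ _), Real.norm_of_nonneg
        (Real.rpow_nonneg (le_max_right _ _) _)]
      exact G_le hα hd _
    · exact iy.norm
    · refine Eventually.of_forall fun x => ?_
      exact (G_tendsto hα (aa - ρ x)).mul_const _
  have hlim2 : Tendsto (fun d : ℝ => d ^ α * (κ + h * (κ ^ m * (1 + α) * C)) * ∫ x, c.w x * ψ x)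
      (𝓝[>] 0) (𝓝 0) := by
    have h1 : Tendsto (fun d : ℝ => d ^ α) (𝓝[>] 0) (𝓝 0) := by
      have := (Real.continuousAt_rpow_const (0:ℝ) α (Or.inr hα.le)).tendsto
      rw [Real.zero_rpow hα.ne'] at this
      exact this.mono_left nhdsWithin_le_nhds
    have h2 := (h1.mul_const (κ + h * (κ ^ m * (1 + α) * C))).mul_const (∫ x, c.w x * ψ x)
    simpa using h2
  have hlim := (((hlim1.const_mul (κ ^ m * (1 + α))).add_const
    (∫ x, c.w x * (κ * (max (aa - ρ x) 0) ^ α) ^ p * ψ x)).const_mul h).add hlim2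
  rw [add_zero] at hlim
  rw [hI1]
  refine ge_of_tendsto hlim ?_
  filter_upwards [self_mem_nhdsWithin] with d hd
  exact hineq d hd

end SubS

open SubS in
theorem stmt_S : Stmt_S := by
  intro N c m p hp hpm ρ hρ a C₀ γ δ b hγ hδ hsub hL hQ
  have hm : 1 < m := hp.trans hpm
  obtain ⟨α, hα'⟩ : ∃ α : ℝ, α = 1 / (m - 1) := ⟨_, rfl⟩
  have hα : 0 < α := by rw [hα']; apply div_pos one_pos; linarith
  have hαm : α * m = 1 + α := by
    rw [hα']
    have : m - 1 ≠ 0 := by linarith
    field_simp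
    ring
  rw [← hα']
  set C : ℝ := max C₀ 0 with hCdef
  have hC : 0 ≤ C := le_max_right _ _
  obtain ⟨y2, hy2def⟩ : ∃ y : ℝ, y = min δ (α * γ / (4 * (C + 1))) := ⟨_, rfl⟩
  have hy2 : 0 < y2 := by rw [hy2def]; exact lt_min hδ (by positivity)
  have hy2δ : y2 ≤ δ := by rw [hy2def]; exact min_le_left _ _
  have hCy : C * y2 ≤ α * γ / 4 := by
    have h1 : y2 ≤ α * γ / (4 * (C + 1)) := by rw [hy2def]; exact min_le_right _ _
    have h2 : C * y2 ≤ (C + 1) * (α * γ / (4 * (C + 1))) := by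
      calc C * y2 ≤ (C + 1) * y2 := by gcongr; linarith
        _ ≤ _ := by gcongr
    refine h2.trans (le_of_eq ?_)
    field_simp
  obtain ⟨β, hβ⟩ : ∃ β : ℝ, β = y2 ^ (α * (p - 1)) := ⟨_, rfl⟩
  have hβ0 : 0 < β := by rw [hβ]; exact Real.rpow_pos_of_pos hy2 _
  have hmp : 0 < m - p := by linarith
  set q : ℝ := β / (2 * (1 + α) * (C + 1)) with hq
  have hq0 : 0 < q := by positivity
  refine ⟨q ^ (1 / (m - p)), Real.rpow_pos_of_pos hq0 _, ?_⟩
  intro κ hκ hκ0
  have hKC : κ ^ m * (1 + α) * C ≤ κ ^ p * β / 2 := by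
    have h1 : κ ^ (m - p) ≤ q := by
      have := Real.rpow_le_rpow hκ.le hκ0 hmp.le
      rwa [← Real.rpow_mul hq0.le, one_div, inv_mul_cancel₀ hmp.ne', Real.rpow_one] at this
    have h2 : κ ^ m = κ ^ p * κ ^ (m - p) := by
      rw [← Real.rpow_add hκ]
      congr 1
      ring
    have hκp : 0 < κ ^ p := Real.rpow_pos_of_pos hκ _
    have h3 : q * (1 + α) * C ≤ β / 2 := by
      calc q * (1 + α) * C ≤ q * (1 + α) * (C + 1) := by gcongr; linarith
        _ = β / 2 := by rw [hq]; field_simp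
    calc κ ^ m * (1 + α) * C = κ ^ p * (κ ^ (m - p) * (1 + α) * C) := by rw [h2]; ring
      _ ≤ κ ^ p * (q * (1 + α) * C) := by gcongr
      _ ≤ κ ^ p * (β / 2) := by gcongr
      _ = κ ^ p * β / 2 := by ring
  have hmax : (0:ℝ) < max 1 α := lt_max_of_lt_left one_pos
  have hκm : 0 < κ ^ m := Real.rpow_pos_of_pos hκ _
  have hκp : 0 < κ ^ p := Real.rpow_pos_of_pos hκ _
  refine ⟨min (κ ^ m * (1 + α) * (α * γ / 4) / (κ * max 1 α))
    (κ ^ p * β / 2 * y2 / (κ * max 1 α)), lt_min (by positivity) (by positivity), ?_⟩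
  set σ : ℝ := min (κ ^ m * (1 + α) * (α * γ / 4) / (κ * max 1 α))
    (κ ^ p * β / 2 * y2 / (κ * max 1 α)) with hσdef
  have hσ : 0 < σ := lt_min (by positivity) (by positivity)
  have hσ1 : κ * max 1 α * σ ≤ κ ^ m * (1 + α) * (α * γ / 4) := by
    have h1 : σ ≤ κ ^ m * (1 + α) * (α * γ / 4) / (κ * max 1 α) := min_le_left _ _
    rw [le_div_iff₀ (by positivity)] at h1
    linarith
  have hσ2 : κ * max 1 α * σ ≤ κ ^ p * β / 2 * y2 := by
    have h1 : σ ≤ κ ^ p * β / 2 * y2 / (κ * max 1 α) := min_le_right _ _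
    rw [le_div_iff₀ (by positivity)] at h1
    linarith
  intro t₀ t₁ ht hb
  obtain ⟨R, hR, hRsub⟩ := hsub _ hb
  have hlt : ∀ t ≤ t₁, ∀ x, 0 < a + σ * (t - t₀) - ρ x → ((ρ x : ℝ) : EReal) < b := by
    intro t htt x hx
    refine lt_trans ?_ hb
    rw [EReal.coe_lt_coe_iff]
    have : σ * (t - t₀) ≤ σ * (t₁ - t₀) := by gcongr
    linarith
  have hαm1 : 1 < 1 + α := by linarith
  refine ⟨R, hR, ?_, ?_, ?_, ?_, ?_⟩
  · -- continuity
    apply Continuous.continuousOn
    apply continuous_const.mul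
    refine (continuous_pos_rpow hα.le).comp ?_
    have := hρ.continuous
    fun_prop
  · intro t x
    exact mul_nonneg hκ.le (Real.rpow_nonneg (le_max_right _ _) _)
  · intro t htt x hx
    have h1 : a + σ * (t₁ - t₀) < ρ x := by
      by_contra h
      exact absurd (hRsub x (not_lt.1 h)) (not_lt.2 hx)
    have h2 : σ * (t - t₀) ≤ σ * (t₁ - t₀) := by
      have := htt.2
      gcongr
    show κ * (max (a + σ * (t - t₀) - ρ x) 0) ^ α = 0
    rw [max_eq_right (by linarith), Real.zero_rpow hα.ne', mul_zero]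
  · intro t _
    have e1 : (fun x => (κ * (max (a + σ * (t - t₀) - ρ x) 0) ^ α) ^ m) =
        fun x => κ ^ m * (fun s : ℝ => (max s 0) ^ (1 + α)) (a + σ * (t - t₀) - ρ x) := by
      ext x
      have h0 : (0:ℝ) ≤ max (a + σ * (t - t₀) - ρ x) 0 := le_max_right _ _
      show (κ * (max (a + σ * (t - t₀) - ρ x) 0) ^ α) ^ m =
        κ ^ m * (max (a + σ * (t - t₀) - ρ x) 0) ^ (1 + α)
      rw [Real.mul_rpow hκ.le (Real.rpow_nonneg h0 _), ← Real.rpow_mul h0, hαm]
    rw [e1]
    exact contDiff_const.mul ((contDiff_pos_rpow hαm1).comp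
      (contDiff_const.sub (hρ.of_le (by simp))))
  · intro s t hs hst htt ψ hψ hψc hψ0
    have hres := ineq_of (c := c) hρ (m := m) (α := α) (κ := κ) (p := p) (C := C) (γ := γ)
      (σ := σ) (y2 := y2) (β := β) (aa := a + σ * (t - t₀)) (h := t - s) hm hα' hκ hp hC hσ
      (by linarith)
      (by
        intro x hx
        refine (hL x (hlt t htt x hx)).trans ?_
        have := c.wpos x
        have hCC : C₀ ≤ C := le_max_left _ _
        gcongr)
      (by
        intro x hx hx2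
        refine hQ x (hlt t htt x hx) ?_
        have : 0 ≤ σ * (t - t₀) := mul_nonneg hσ.le (by linarith)
        linarith)
      hy2 hCy hβ hKC hσ1 hσ2 hψ hψc hψ0
    have e1 : ∀ x, a + σ * (t - t₀) - ρ x - σ * (t - s) = a + σ * (s - t₀) - ρ x := by
      intro x
      ring
    simp only [e1] at hres
    exact hres

end Pool.Agent.MP909527
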