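import Pool.Agent.Work.MP_909527_an.Interface

/-!
# MP_909527_an, block S, part 1: calculus lemmas
-/

set_option autoImplicit false

open MeasureTheory Set Filter Topology
open scoped ContDiff InnerProductSpace

namespace Pool.Agent.MP909527

namespace SubS

/-! ### powers of the positive part -/

lemma hasDerivAt_pos_rpow {β : ℝ} (hβ : 1 < β) (s : ℝ) :
    HasDerivAt (fun s : ℝ => (max s 0) ^ β) (β * (max s 0) ^ (β - 1)) s := by
  rcases lt_trichotomy s 0 with h | h | h
  · have h1 : (fun s : ℝ => (max s 0) ^ β) =ᶠ[𝓝 s] fun _ => (0 : ℝ) := by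
      filter_upwards [gt_mem_nhds h] with r hr
      rw [max_eq_right hr.le, Real.zero_rpow (by linarith)]
    rw [max_eq_right h.le, Real.zero_rpow (by linarith), mul_zero]
    exact (hasDerivAt_const s (0 : ℝ)).congr_of_eventuallyEq h1
  · subst h
    rw [max_self, Real.zero_rpow (by linarith), mul_zero]
    rw [hasDerivAt_iff_isLittleO]
    have h2 : HasDerivAt (fun x : ℝ => |x| ^ β) (0) 0 := by
      have := hasDerivAt_abs_rpow (0 : ℝ) hβ
      simpa using this
    rw [hasDerivAt_iff_isLittleO] at h2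
    refine (Asymptotics.IsBigO.of_bound 1 (Eventually.of_forall fun x => ?_)).trans_isLittleO h2
    have h3 : (0:ℝ) ^ β = 0 := Real.zero_rpow (by linarith)
    simp only [max_self, abs_zero, h3, sub_zero, smul_zero, one_mul, Real.norm_eq_abs]
    have h4 : 0 ≤ (max x 0) ^ β := Real.rpow_nonneg (le_max_right _ _) _
    have h5 : 0 ≤ |x| ^ β := Real.rpow_nonneg (abs_nonneg _) _
    rw [abs_of_nonneg h4, abs_of_nonneg h5]
    exact Real.rpow_le_rpow (le_max_right _ _) (max_le (le_abs_self x) (abs_nonneg x)) (by linarith)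
  · have h1 : (fun s : ℝ => (max s 0) ^ β) =ᶠ[𝓝 s] fun s => s ^ β := by
      filter_upwards [lt_mem_nhds h] with r hr
      rw [max_eq_left hr.le]
    rw [max_eq_left h.le]
    exact (Real.hasDerivAt_rpow_const (Or.inl h.ne')).congr_of_eventuallyEq h1

lemma continuous_pos_rpow {β : ℝ} (hβ : 0 ≤ β) : Continuous (fun s : ℝ => (max s 0) ^ β) :=
  (continuous_id.max continuous_const).rpow_const fun _ => Or.inr hβ

lemma contDiff_pos_rpow {β : ℝ} (hβ : 1 < β) : ContDiff ℝ 1 (fun s : ℝ => (max s 0) ^ β) := by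
  rw [contDiff_one_iff_deriv]
  refine ⟨fun s => (hasDerivAt_pos_rpow hβ s).differentiableAt, ?_⟩
  have h1 : deriv (fun s : ℝ => (max s 0) ^ β) = fun s => β * (max s 0) ^ (β - 1) := by
    ext s
    exact (hasDerivAt_pos_rpow hβ s).deriv
  rw [h1]
  exact continuous_const.mul (continuous_pos_rpow (by linarith))

/-! ### the regularised slope -/

/-- `G_d(s) = s_+^{α+2} / (s²+d²)`. -/
noncomputable def G (α d s : ℝ) : ℝ := (max s 0) ^ (α + 2) / (s ^ 2 + d ^ 2)

/-- Its derivative. -/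
noncomputable def G' (α d s : ℝ) : ℝ :=
  ((α + 2) * (max s 0) ^ (α + 1) * (s ^ 2 + d ^ 2) - (max s 0) ^ (α + 2) * (2 * s)) /
    (s ^ 2 + d ^ 2) ^ 2

lemma hasDerivAt_G {α d : ℝ} (hα : 0 < α) (hd : 0 < d) (s : ℝ) :
    HasDerivAt (G α d) (G' α d s) s := by
  unfold G G'
  have h1 := hasDerivAt_pos_rpow (β := α + 2) (by linarith) s
  have e1 : α + 2 - 1 = α + 1 := by ring
  rw [e1] at h1
  have h2 : HasDerivAt (fun s : ℝ => s ^ 2 + d ^ 2) (2 * s) s := by
    simpa using (hasDerivAt_pow 2 s).add_const (d ^ 2)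
  have h3 : s ^ 2 + d ^ 2 ≠ 0 := by positivity
  exact h1.fun_div h2 h3

lemma contDiff_G {α d : ℝ} (hα : 0 < α) (hd : 0 < d) : ContDiff ℝ 1 (G α d) := by
  unfold G
  apply ContDiff.div (contDiff_pos_rpow (by linarith))
  · exact (contDiff_id.pow 2).add contDiff_const
  · intro s
    positivity

lemma G_nonneg (α d s : ℝ) : 0 ≤ G α d s := by
  unfold G
  have : 0 ≤ (max s 0) ^ (α + 2) := Real.rpow_nonneg (le_max_right _ _) _
  positivity

lemma G_of_nonpos {α d s : ℝ} (hα : 0 < α) (hs : s ≤ 0) : G α d s = 0 := by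
  unfold G
  rw [max_eq_right hs, Real.zero_rpow (by linarith), zero_div]

lemma G_of_pos {α d s : ℝ} (hs : 0 < s) : G α d s = s ^ α * (s ^ 2 / (s ^ 2 + d ^ 2)) := by
  unfold G
  rw [max_eq_left hs.le, Real.rpow_add hs]
  have : s ^ (2:ℝ) = s ^ 2 := by norm_cast
  rw [this]
  ring

lemma G_le {α d : ℝ} (hα : 0 < α) (hd : 0 < d) (s : ℝ) : G α d s ≤ (max s 0) ^ α := by
  rcases le_or_gt s 0 with h | h
  · rw [G_of_nonpos hα h]
    exact Real.rpow_nonneg (le_max_right _ _) _
  · rw [G_of_pos h, max_eq_left h.le]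
    have h1 : 0 < s ^ α := Real.rpow_pos_of_pos h _
    have h2 : s ^ 2 / (s ^ 2 + d ^ 2) ≤ 1 := by
      rw [div_le_one (by positivity)]
      have := sq_nonneg d
      linarith
    calc s ^ α * (s ^ 2 / (s ^ 2 + d ^ 2)) ≤ s ^ α * 1 := by gcongr
      _ = s ^ α := mul_one _

lemma G'_of_nonpos {α d s : ℝ} (hα : 0 < α) (hs : s ≤ 0) : G' α d s = 0 := by
  unfold G'
  rw [max_eq_right hs, Real.zero_rpow (by linarith), Real.zero_rpow (by linarith)]
  simp

lemma G'_of_pos {α d s : ℝ} (hs : 0 < s) :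
    G' α d s = s ^ (α + 1) * (α * s ^ 2 + (α + 2) * d ^ 2) / (s ^ 2 + d ^ 2) ^ 2 := by
  unfold G'
  rw [max_eq_left hs.le]
  have : s ^ (α + 2) = s ^ (α + 1) * s := by
    rw [show α + 2 = (α + 1) + 1 by ring, Real.rpow_add hs (α + 1) 1, Real.rpow_one]
  rw [this]
  ring

lemma G'_nonneg {α d : ℝ} (hα : 0 < α) (s : ℝ) : 0 ≤ G' α d s := by
  rcases le_or_gt s 0 with h | h
  · rw [G'_of_nonpos hα h]
  · rw [G'_of_pos h]
    have : 0 < s ^ (α + 1) := Real.rpow_pos_of_pos h _
    positivity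

lemma G'_ge {α d s : ℝ} (hα : 0 < α) (hd : 0 < d) (hs : d ≤ s) :
    α / 2 * s ^ (α - 1) ≤ G' α d s := by
  have h : 0 < s := hd.trans_le hs
  rw [G'_of_pos h]
  have h1 : 0 < s ^ (α - 1) := Real.rpow_pos_of_pos h _
  have h2 : s ^ (α + 1) = s ^ (α - 1) * s ^ 2 := by
    rw [show α + 1 = (α - 1) + 2 by ring, Real.rpow_add h]
    norm_cast
  rw [h2, le_div_iff₀ (by positivity)]
  have h3 : d ^ 2 ≤ s ^ 2 := by gcongr
  have h4 : (s ^ 2 + d ^ 2) ^ 2 ≤ (s ^ 2 + d ^ 2) * (2 * s ^ 2) := by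
    rw [sq (s ^ 2 + d ^ 2)]
    gcongr
    linarith
  calc α / 2 * s ^ (α - 1) * (s ^ 2 + d ^ 2) ^ 2
      ≤ α / 2 * s ^ (α - 1) * ((s ^ 2 + d ^ 2) * (2 * s ^ 2)) := by gcongr
    _ = s ^ (α - 1) * s ^ 2 * (α * s ^ 2 + α * d ^ 2) := by ring
    _ ≤ s ^ (α - 1) * s ^ 2 * (α * s ^ 2 + (α + 2) * d ^ 2) := by
        gcongr
        linarith

lemma G_tendsto {α : ℝ} (hα : 0 < α) (s : ℝ) :
    Tendsto (fun d => G α d s) (𝓝[>] 0) (𝓝 ((max s 0) ^ α)) := by
  rcases le_or_gt s 0 with h | h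
  · simp only [G_of_nonpos hα h, max_eq_right h, Real.zero_rpow hα.ne']
    exact tendsto_const_nhds
  · simp only [G_of_pos h, max_eq_left h.le]
    have h1 : Tendsto (fun d : ℝ => s ^ α * (s ^ 2 / (s ^ 2 + d ^ 2))) (𝓝 0)
        (𝓝 (s ^ α * (s ^ 2 / (s ^ 2 + 0 ^ 2)))) := by
      have h2 : ContinuousAt (fun d : ℝ => s ^ α * (s ^ 2 / (s ^ 2 + d ^ 2))) 0 := by
        apply ContinuousAt.mul continuousAt_const
        apply ContinuousAt.div continuousAt_const
        · fun_prop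
        · positivity
      exact h2
    have h3 : s ^ α * (s ^ 2 / (s ^ 2 + 0 ^ 2)) = s ^ α := by
      have : s ^ 2 ≠ 0 := by positivity
      rw [zero_pow two_ne_zero, add_zero, div_self this, mul_one]
    rw [h3] at h1
    exact h1.mono_left nhdsWithin_le_nhds

/-! ### the time increment -/

lemma one_sub_rpow_le {α l : ℝ} (hα : 0 < α) (h0 : 0 ≤ l) (h1 : l ≤ 1) :
    1 - l ^ α ≤ max 1 α * (1 - l) := by
  rcases le_or_gt α 1 with h | h
  · have h2 : l ≤ l ^ α := by
      rcases h0.eq_or_lt with h3 | h3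
      · rw [← h3]
        exact Real.rpow_nonneg le_rfl _
      · have := Real.rpow_le_rpow_of_exponent_ge h3 h1 h
        rwa [Real.rpow_one] at this
    have h3 : 1 * (1 - l) ≤ max 1 α * (1 - l) :=
      mul_le_mul_of_nonneg_right (le_max_left _ _) (by linarith)
    linarith
  · have h2 := one_add_mul_self_le_rpow_one_add (s := l - 1) (p := α) (by linarith) h.le
    rw [show 1 + (l - 1) = l by ring] at h2
    have h3 : α * (1 - l) ≤ max 1 α * (1 - l) :=
      mul_le_mul_of_nonneg_right (le_max_right _ _) (by linarith)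
    nlinarith

lemma rpow_sub_le {α y z h : ℝ} (hα : 0 < α) (hy : 0 < y) (hz : 0 ≤ z) (hzy : z ≤ y)
    (hh : y - h ≤ z) : y ^ α - z ^ α ≤ max 1 α * h * y ^ (α - 1) := by
  have h1 := one_sub_rpow_le hα (l := z / y) (by positivity) ((div_le_one hy).2 hzy)
  rw [Real.div_rpow hz hy.le] at h1
  have h2 : 0 < y ^ α := Real.rpow_pos_of_pos hy _
  have h3 : y ^ α - z ^ α = y ^ α * (1 - z ^ α / y ^ α) := by
    field_simp
  have h4 : 1 - z / y ≤ h / y := by
    rw [sub_le_iff_le_add, ← add_div, le_div_iff₀ hy]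
    linarith
  have h5 : (0:ℝ) < max 1 α := lt_max_of_lt_left one_pos
  rw [h3, Real.rpow_sub hy, Real.rpow_one]
  calc y ^ α * (1 - z ^ α / y ^ α) ≤ y ^ α * (max 1 α * (1 - z / y)) := by gcongr
    _ ≤ y ^ α * (max 1 α * (h / y)) := by gcongr
    _ = max 1 α * h * (y ^ α / y) := by ring

/-! ### gradients and integration by parts -/

variable {N : ℕ}

lemma inner_e (v : E N) (i : Fin N) : ⟪e i, v⟫_ℝ = v i := by
  simp [e, EuclideanSpace.inner_single_left]

lemma gradient_apply (f : E N → ℝ) (x : E N) (j : Fin N) :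
    (gradient f x) j = fderiv ℝ f x (e j) := by
  rw [← inner_e, real_inner_comm]
  unfold gradient
  rw [InnerProductSpace.toDual_symm_apply]

lemma inner_eq_sum (u v : E N) : ⟪u, v⟫_ℝ = ∑ i, u i * v i := by
  rw [PiLp.inner_apply]
  apply Finset.sum_congr rfl
  intro i _
  simp [mul_comm]

lemma gradient_comp {f : ℝ → ℝ} {f' : ℝ} {Y : E N → ℝ} {x : E N} (hf : HasDerivAt f f' (Y x))
    (hY : DifferentiableAt ℝ Y x) :
    gradient (fun y => f (Y y)) x = f' • gradient Y x := by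
  ext i
  rw [gradient_apply, PiLp.smul_apply, gradient_apply]
  have := hf.comp_hasFDerivAt x hY.hasFDerivAt
  have h2 : fderiv ℝ (fun y => f (Y y)) x = f' • fderiv ℝ Y x := this.fderiv
  rw [h2]
  rfl

lemma gradient_const_sub (ρ : E N → ℝ) (a : ℝ) (x : E N) :
    gradient (fun y => a - ρ y) x = - gradient ρ x := by
  ext i
  rw [gradient_apply, fderiv_const_sub, PiLp.neg_apply, gradient_apply]
  rfl

lemma continuous_gradient {f : E N → ℝ} (hf : ContDiff ℝ 1 f) : Continuous (gradient f) := by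
  unfold gradient
  exact (InnerProductSpace.toDual ℝ (E N)).symm.continuous.comp (hf.continuous_fderiv (by simp))

lemma contDiff_gradient {f : E N → ℝ} (hf : ContDiff ℝ ∞ f) : ContDiff ℝ ∞ (gradient f) := by
  unfold gradient
  exact (InnerProductSpace.toDual ℝ (E N)).symm.contDiff.comp (hf.fderiv_right (m := ∞) (by simp))

lemma gradient_cs {f : E N → ℝ} (hf : HasCompactSupport f) : HasCompactSupport (gradient f) := by
  have h1 : HasCompactSupport (fderiv ℝ f) := hf.fderiv (𝕜 := ℝ)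
  exact h1.comp_left (g := (InnerProductSpace.toDual ℝ (E N)).symm) (map_zero _)

/-- integration by parts: `∫ F ⟨W,∇ψ⟩ = -∫ (⟨∇F,W⟩ + F div W) ψ`. -/
lemma ibp {F : E N → ℝ} (hF : ContDiff ℝ 1 F) {W : E N → E N} (hW : ContDiff ℝ 1 W)
    {ψ : E N → ℝ} (hψ : ContDiff ℝ 1 ψ) (hψc : HasCompactSupport ψ) :
    ∫ x, F x * ⟪W x, gradient ψ x⟫_ℝ =
      - ∫ x, (⟪gradient F x, W x⟫_ℝ + F x * ∑ i, fderiv ℝ (fun y => (W y) i) x (e i)) * ψ x := by
  have hWi : ∀ i, ContDiff ℝ 1 (fun y => (W y) i) := fun i => (contDiff_euclidean.1 hW) i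
  have hFW : ∀ i, ContDiff ℝ 1 (fun y => F y * (W y) i) := fun i => hF.mul (hWi i)
  have c1 : ∀ i, Continuous (fun x => fderiv ℝ (fun y => F y * (W y) i) x (e i)) := fun i =>
    ((hFW i).continuous_fderiv (by simp)).clm_apply continuous_const
  have c2 : ∀ i : Fin N, Continuous (fun x => fderiv ℝ ψ x (e i)) := fun i =>
    (hψ.continuous_fderiv (by simp)).clm_apply continuous_const
  have s2 : ∀ i : Fin N, HasCompactSupport (fun x => fderiv ℝ ψ x (e i)) := fun i =>
    hψc.fderiv_apply (𝕜 := ℝ) (e i)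
  have i1 : ∀ i, Integrable (fun x => fderiv ℝ (fun y => F y * (W y) i) x (e i) * ψ x) := fun i =>
    ((c1 i).mul hψ.continuous).integrable_of_hasCompactSupport hψc.mul_left
  have i2 : ∀ i, Integrable (fun x => (F x * (W x) i) * fderiv ℝ ψ x (e i)) := fun i =>
    ((hFW i).continuous.mul (c2 i)).integrable_of_hasCompactSupport (s2 i).mul_left
  have i3 : ∀ i, Integrable (fun x => (F x * (W x) i) * ψ x) := fun i =>
    ((hFW i).continuous.mul hψ.continuous).integrable_of_hasCompactSupport hψc.mul_left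
  have key : ∀ i, ∫ x, (F x * (W x) i) * fderiv ℝ ψ x (e i) =
      - ∫ x, fderiv ℝ (fun y => F y * (W y) i) x (e i) * ψ x := fun i =>
    integral_mul_fderiv_eq_neg_fderiv_mul_of_integrable (i1 i) (i2 i) (i3 i)
      (fun x _ => ((hFW i).differentiable (by simp)).differentiableAt)
      (fun x _ => (hψ.differentiable (by simp)).differentiableAt)
  have e1 : ∀ x, F x * ⟪W x, gradient ψ x⟫_ℝ = ∑ i, (F x * (W x) i) * fderiv ℝ ψ x (e i) := by
    intro x
    rw [inner_eq_sum, Finset.mul_sum]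
    apply Finset.sum_congr rfl
    intro i _
    rw [gradient_apply]
    ring
  have e2 : ∀ x, (⟪gradient F x, W x⟫_ℝ + F x * ∑ i, fderiv ℝ (fun y => (W y) i) x (e i)) * ψ x
      = ∑ i, fderiv ℝ (fun y => F y * (W y) i) x (e i) * ψ x := by
    intro x
    rw [inner_eq_sum, Finset.mul_sum, ← Finset.sum_add_distrib, Finset.sum_mul]
    apply Finset.sum_congr rfl
    intro i _
    rw [gradient_apply, fderiv_fun_mul (hF.differentiable (by simp)).differentiableAt
      ((hWi i).differentiable (by simp)).differentiableAt]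
    simp only [add_apply, smul_apply, smul_eq_mul]
    ring
  simp only [e1, e2]
  rw [integral_finsetSum _ fun i _ => i2 i, integral_finsetSum _ fun i _ => i1 i,
    ← Finset.sum_neg_distrib]
  exact Finset.sum_congr rfl fun i _ => key i

end SubS

end Pool.Agent.MP909527
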