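import Pool.Agent.Work.MP_909527_an.Interface

/-!
# MP_909527_an, block T, part 1: from the distributional to the integrated identity in time
-/

set_option autoImplicit false

open MeasureTheory Set Filter Topology
open scoped ContDiff InnerProductSpace

namespace Pool.Agent.MP909527

namespace TInc

lemma compact_in_Ioo {K : Set ℝ} (hK : IsCompact K) {T : ℝ} (hT : 0 < T) (hKT : K ⊆ Ioo 0 T) :
    ∃ a b, 0 < a ∧ a < b ∧ b < T ∧ K ⊆ Ioo a b := by
  rcases K.eq_empty_or_nonempty with h | h
  · exact ⟨T / 3, T / 2, by linarith, by linarith, by linarith, by simp [h]⟩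
  · obtain ⟨x, hx, hmin⟩ := hK.exists_isMinOn h continuousOn_id
    obtain ⟨y, hy, hmax⟩ := hK.exists_isMaxOn h continuousOn_id
    have hx1 := (hKT hx).1
    have hy1 := (hKT hy).2
    have hxy : x ≤ y := hmin hy
    refine ⟨x / 2, (y + T) / 2, by linarith, by linarith, by linarith, ?_⟩
    intro z hz
    have h1 : x ≤ z := hmin hz
    have h2 : z ≤ y := hmax hz
    exact ⟨by linarith, by linarith⟩

/-- a smooth function with zero integral, compactly supported in `(0,T)`, has a primitive
compactly supported in `(0,T)` -/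
lemma exists_primitive {h : ℝ → ℝ} (hh : ContDiff ℝ ∞ h) (hc : HasCompactSupport h) {T : ℝ}
    (hT : 0 < T) (hsupp : tsupport h ⊆ Ioo 0 T) (hint : ∫ x, h x = 0) :
    ∃ χ : ℝ → ℝ, ContDiff ℝ ∞ χ ∧ HasCompactSupport χ ∧ tsupport χ ⊆ Ioo 0 T ∧
      ∀ r, HasDerivAt χ (h r) r := by
  obtain ⟨a, b, ha, hab, hb, hKab⟩ := compact_in_Ioo hc hT hsupp
  have hz : ∀ r, r ∉ Ioo a b → h r = 0 := fun r hr => image_eq_zero_of_notMem_tsupport
    fun hr' => hr (hKab hr')
  have hder : ∀ r, HasDerivAt (fun r => ∫ q in (0:ℝ)..r, h q) (h r) r := fun r =>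
    intervalIntegral.integral_hasDerivAt_right (hh.continuous.intervalIntegrable _ _)
      (hh.continuous.stronglyMeasurableAtFilter _ _) hh.continuous.continuousAt
  have hsm : ContDiff ℝ ∞ (fun r => ∫ q in (0:ℝ)..r, h q) := by
    rw [contDiff_infty_iff_deriv]
    refine ⟨fun r => (hder r).differentiableAt, ?_⟩
    have : deriv (fun r => ∫ q in (0:ℝ)..r, h q) = h := by
      ext r
      exact (hder r).deriv
    rw [this]
    exact hh
  have hzero : ∀ r, r ∉ Icc a b → ∫ q in (0:ℝ)..r, h q = 0 := by
    intro r hr
    rw [mem_Icc, not_and_or, not_le, not_le] at hr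
    rcases hr with hr | hr
    · apply intervalIntegral.integral_zero_ae
      refine Eventually.of_forall fun q hq => hz q fun hq' => ?_
      have h1 : q ≤ max 0 r := hq.2
      have h2 : max 0 r ≤ a := max_le ha.le hr.le
      linarith [hq'.1]
    · rw [intervalIntegral.integral_eq_integral_of_support_subset, hint]
      intro q hq
      have : q ∈ Ioo a b := by
        by_contra hq'
        exact hq (hz q hq')
      exact ⟨by linarith [this.1], by linarith [this.2]⟩
  have hts : tsupport (fun r => ∫ q in (0:ℝ)..r, h q) ⊆ Icc a b := by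
    apply closure_minimal _ isClosed_Icc
    intro r hr
    by_contra hr'
    exact hr (hzero r hr')
  refine ⟨_, hsm, ?_, hts.trans ?_, hder⟩
  · exact isCompact_Icc.of_isClosed_subset (isClosed_tsupport _) hts
  · intro r hr
    exact ⟨by linarith [hr.1], by linarith [hr.2]⟩

/-- integral over `(0,T)` of a function which vanishes outside `(a,b)` -/
lemma setIntegral_eq_interval {f : ℝ → ℝ} {a b T : ℝ} (ha : 0 < a) (_ : a < b) (hb : b < T)
    (hf : ∀ r, r ∉ Ioo a b → f r = 0) : ∫ r in Ioo 0 T, f r = ∫ r in a..b, f r := by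
  have h1 : Function.support f ⊆ Ioc a b := by
    intro r hr
    by_contra hr'
    exact hr (hf r fun h => hr' ⟨h.1, h.2.le⟩)
  rw [intervalIntegral.integral_eq_integral_of_support_subset h1]
  apply setIntegral_eq_integral_of_forall_compl_eq_zero
  intro r hr
  refine hf r fun h => hr ⟨?_, ?_⟩
  · linarith [h.1]
  · linarith [h.2]

lemma oneD {U V : ℝ → ℝ} (hU : ContinuousOn U (Ioi 0)) (hV : ContinuousOn V (Ioi 0))
    (hweak : ∀ T > 0, ∀ χ : ℝ → ℝ, ContDiff ℝ ∞ χ → HasCompactSupport χ → tsupport χ ⊆ Ioo 0 T →
      -(∫ r in Ioo 0 T, U r * deriv χ r) = ∫ r in Ioo 0 T, V r * χ r)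
    {s t : ℝ} (hs : 0 < s) (hst : s < t) : U t - U s = ∫ r in s..t, V r := by
  have ht : 0 < t := hs.trans hst
  obtain ⟨T, hTdef⟩ : ∃ T, T = t + 1 := ⟨_, rfl⟩
  have hT : 0 < T := by linarith
  -- the primitive of `V`
  set F : ℝ → ℝ := fun r => U r - ∫ q in s..r, V q with hF
  have hVi : ∀ x y, 0 < x → 0 < y → IntervalIntegrable V volume x y := by
    intro x y hx hy
    apply ContinuousOn.intervalIntegrable
    apply hV.mono
    intro z hz
    exact (lt_min hx hy).trans_le hz.1
  have hWder : ∀ r, 0 < r → HasDerivAt (fun r => ∫ q in s..r, V q) (V r) r := by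
    intro r hr
    exact intervalIntegral.integral_hasDerivAt_right (hVi s r hs hr)
      (hV.stronglyMeasurableAtFilter isOpen_Ioi r hr) (hV.continuousAt (Ioi_mem_nhds hr))
  have hFc : ContinuousOn F (Ioi 0) := by
    apply hU.sub
    intro r hr
    exact (hWder r hr).continuousAt.continuousWithinAt
  -- orthogonality to functions with zero integral
  have key : ∀ h : ℝ → ℝ, ContDiff ℝ ∞ h → HasCompactSupport h → tsupport h ⊆ Ioo 0 T →
      ∫ x, h x = 0 → ∫ r, h r * F r = 0 := by
    intro h hh hc hsupp hint
    obtain ⟨χ, hχ, hχc, hχs, hχd⟩ := exists_primitive hh hc hT hsupp hint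
    have hK : IsCompact (tsupport h ∪ tsupport χ) := hc.isCompact.union hχc.isCompact
    obtain ⟨a, b, ha, hab, hb, hKab⟩ := compact_in_Ioo hK hT (union_subset hsupp hχs)
    have hz : ∀ r, r ∉ Ioo a b → h r = 0 := fun r hr => image_eq_zero_of_notMem_tsupport
      fun hr' => hr (hKab (Or.inl hr'))
    have hz2 : ∀ r, r ∉ Ioo a b → χ r = 0 := fun r hr => image_eq_zero_of_notMem_tsupport
      fun hr' => hr (hKab (Or.inr hr'))
    have hw := hweak T hT χ hχ hχc hχs
    have hd : deriv χ = h := by ext r; exact (hχd r).deriv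
    rw [hd, setIntegral_eq_interval ha hab hb (fun r hr => by rw [hz r hr, mul_zero]),
      setIntegral_eq_interval ha hab hb (fun r hr => by rw [hz2 r hr, mul_zero])] at hw
    have hsub : uIcc a b ⊆ Ioi 0 := by
      intro r hr
      rw [uIcc_of_le hab.le] at hr
      exact ha.trans_le hr.1
    have hib := intervalIntegral.integral_deriv_mul_eq_sub (a := a) (b := b) (u := χ) (v := fun r => ∫ q in s..r, V q)
      (u' := h) (v' := V) (fun x _ => hχd x) (fun x hx => hWder x (hsub hx))
      (hh.continuous.intervalIntegrable _ _) (hVi a b ha (ha.trans hab))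
    rw [hz2 b (by simp), hz2 a (by simp), zero_mul, zero_mul, sub_zero] at hib
    have hWc : ContinuousOn (fun r => ∫ q in s..r, V q) (uIcc a b) := fun r hr =>
      (hWder r (hsub hr)).continuousAt.continuousWithinAt
    have i1 : IntervalIntegrable (fun r => h r * ∫ q in s..r, V q) volume a b :=
      (hh.continuous.continuousOn.mul hWc).intervalIntegrable
    have i2 : IntervalIntegrable (fun r => χ r * V r) volume a b :=
      (hχ.continuous.continuousOn.mul (hV.mono hsub)).intervalIntegrable
    have i3 : IntervalIntegrable (fun r => h r * U r) volume a b :=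
      (hh.continuous.continuousOn.mul (hU.mono hsub)).intervalIntegrable
    rw [intervalIntegral.integral_add i1 i2] at hib
    have e1 : ∫ r, h r * F r = ∫ r in a..b, h r * F r := by
      rw [intervalIntegral.integral_eq_integral_of_support_subset]
      intro r hr
      by_contra hr'
      exact hr (show h r * F r = 0 by rw [hz r fun h => hr' ⟨h.1, h.2.le⟩, zero_mul])
    have e2 : ∫ r in a..b, h r * F r =
        (∫ r in a..b, h r * U r) - ∫ r in a..b, h r * ∫ q in s..r, V q := by
      rw [← intervalIntegral.integral_sub i3 i1]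
      congr 1
      ext r
      rw [hF]
      ring
    have e3 : ∫ r in a..b, h r * U r = ∫ r in a..b, U r * h r := by
      congr 1
      ext r
      ring
    have e4 : ∫ r in a..b, χ r * V r = ∫ r in a..b, V r * χ r := by
      congr 1
      ext r
      ring
    rw [e1, e2, e3]
    rw [e4] at hib
    linarith
  -- a normalised bump function
  obtain ⟨η, hη, hηc, hηs, hηi⟩ : ∃ η : ℝ → ℝ, ContDiff ℝ ∞ η ∧ HasCompactSupport η ∧
      tsupport η ⊆ Ioo 0 T ∧ ∫ x, η x = 1 := by
    let f : ContDiffBump (T / 2) := ⟨T / 8, T / 4, by positivity, by linarith⟩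
    refine ⟨f.normed volume, f.contDiff_normed, f.hasCompactSupport_normed, ?_, f.integral_normed⟩
    rw [f.tsupport_normed_eq]
    intro x hx
    rw [Metric.mem_closedBall, Real.dist_eq, abs_le] at hx
    have e1 : f.rOut = T / 4 := rfl
    rw [e1] at hx
    exact ⟨by linarith [hx.1], by linarith [hx.2]⟩
  set cst : ℝ := ∫ r, η r * F r with hcst
  have hint : ∀ g : ℝ → ℝ, ContDiff ℝ ∞ g → HasCompactSupport g → tsupport g ⊆ Ioo 0 T →
      Integrable (fun r => g r * F r) := by
    intro g hg hgc hgs
    have h1 : Continuous (fun r => g r * F r) := by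
      rw [continuous_iff_continuousAt]
      intro r
      by_cases hr : r ∈ tsupport g
      · exact hg.continuous.continuousAt.mul (hFc.continuousAt (Ioi_mem_nhds (hgs hr).1))
      · have h2 : (fun r => g r * F r) =ᶠ[𝓝 r] fun _ => 0 := by
          filter_upwards [(isClosed_tsupport g).isOpen_compl.mem_nhds hr] with q hq
          rw [image_eq_zero_of_notMem_tsupport hq, zero_mul]
        exact continuousAt_const.congr h2.symm
    exact h1.integrable_of_hasCompactSupport hgc.mul_right
  have horth : ∀ g : ℝ → ℝ, ContDiff ℝ ∞ g → HasCompactSupport g → tsupport g ⊆ Ioo 0 T →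
      ∫ r, g r • (F r - cst) = 0 := by
    intro g hg hgc hgs
    set G : ℝ := ∫ r, g r with hG
    have hg2 : HasCompactSupport (fun r => G * η r) := hηc.mul_left
    have k1 : ContDiff ℝ ∞ (fun r => g r - G * η r) := hg.sub (contDiff_const.mul hη)
    have k2 : HasCompactSupport (fun r => g r - G * η r) := hgc.sub hg2
    have k3 : tsupport (fun r => g r - G * η r) ⊆ Ioo 0 T := by
      refine (tsupport_sub g (fun r => G * η r)).trans (union_subset hgs ?_)
      refine (closure_mono ?_).trans hηs
      intro r hr
      rw [Function.mem_support] at hr ⊢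
      intro h0
      exact hr (by rw [h0, mul_zero])
    have ig : Integrable g := hg.continuous.integrable_of_hasCompactSupport hgc
    have iη : Integrable (fun r => G * η r) :=
      (hη.continuous.integrable_of_hasCompactSupport hηc).const_mul _
    have k4 : ∫ r, (g r - G * η r) = 0 := by
      rw [integral_sub ig iη, integral_const_mul, hηi, mul_one, sub_self]
    have k5 := key _ k1 k2 k3 k4
    have i1 := hint g hg hgc hgs
    have i2 := hint η hη hηc hηs
    have e1 : ∀ r, (g r - G * η r) * F r = g r * F r - G * (η r * F r) := fun r => by ring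
    simp only [e1] at k5
    rw [integral_sub i1 (i2.const_mul G), integral_const_mul] at k5
    have e2 : ∀ r, g r • (F r - cst) = g r * F r - g r * cst := fun r => by
      rw [smul_eq_mul]; ring
    simp only [e2]
    rw [integral_sub i1 (ig.mul_const cst), integral_mul_const]
    exact k5
  have hFc' : ContinuousOn F (Ioo 0 T) := hFc.mono fun r hr => hr.1
  have hae := isOpen_Ioo.ae_eq_zero_of_integral_contDiff_smul_eq_zero (μ := (volume : Measure ℝ))
    (f := fun r => F r - cst) (U := Ioo 0 T)
    ((hFc'.sub continuousOn_const).locallyIntegrableOn measurableSet_Ioo) horth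
  have hEq : EqOn F (fun _ => cst) (Ioo 0 T) := by
    apply MeasureTheory.Measure.eqOn_open_of_ae_eq (μ := (volume : Measure ℝ)) _ isOpen_Ioo hFc'
      continuousOn_const
    rw [EventuallyEq, ae_restrict_iff' measurableSet_Ioo]
    filter_upwards [hae] with r hr hr2
    have := hr hr2
    linarith
  have h1 := hEq (show t ∈ Ioo 0 T from ⟨ht, by linarith⟩)
  have h2 := hEq (show s ∈ Ioo 0 T from ⟨hs, by linarith⟩)
  simp only [hF, intervalIntegral.integral_same, sub_zero] at h1 h2
  linarith

end TInc

end Pool.Agent.MP909527
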