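import Pool.Agent.Work.MP_909527_an_helper82.S1
import Pool.Agent.Work.MP_909527_an_helper82.T1

/-!
# MP_909527_an, block T: time increments
-/

set_option autoImplicit false

open MeasureTheory Set Filter Topology
open scoped ContDiff InnerProductSpace

namespace Pool.Agent.MP909527

namespace TInc

open SubS

variable {N : ℕ} {M : NormalMetric N} {c : Coef N}

lemma vol_eq (hc : IsCoefOf c M) :
    M.vol = volume.withDensity fun x => ENNReal.ofReal (c.w x) := by
  unfold NormalMetric.vol
  congr 1
  ext x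
  rw [hc.1]

lemma integral_vol (hc : IsCoefOf c M) (f : E N → ℝ) :
    ∫ x, f x ∂M.vol = ∫ x, c.w x * f x := by
  rw [vol_eq hc, integral_withDensity_eq_integral_toReal_smul]
  · congr 1
    ext x
    rw [ENNReal.toReal_ofReal (c.wpos x).le, smul_eq_mul]
  · exact c.smoothw.continuous.measurable.ennreal_ofReal
  · exact Eventually.of_forall fun x => ENNReal.ofReal_lt_top

lemma innerSL_gradient (φ : E N → ℝ) (x : E N) : innerSL ℝ (gradient φ x) = fderiv ℝ φ x := by
  ext v
  rw [innerSL_apply_apply, gradient, InnerProductSpace.toDual_symm_apply]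

lemma w_lap (hc : IsCoefOf c M) (φ : E N → ℝ) (x : E N) : c.w x * M.lap φ x = c.L φ x := by
  unfold NormalMetric.lap Coef.L
  have h0 : M.dens x ≠ 0 := by rw [← hc.1]; exact (c.wpos x).ne'
  rw [hc.1 x, ← mul_assoc, mul_inv_cancel₀ h0, one_mul]
  apply Finset.sum_congr rfl
  intro i _
  congr 2
  ext y
  rw [hc.2, innerSL_gradient]
  rfl

lemma differentiable_flux (c : Coef N) {φ : E N → ℝ} (hφ : ContDiff ℝ ∞ φ) (i : Fin N) :
    Differentiable ℝ (fun y => (c.A y (gradient φ y)) i) := by
  have hW : ContDiff ℝ ∞ (fun y => c.A y (gradient φ y)) :=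
    c.smoothA.clm_apply (contDiff_gradient hφ)
  exact ((contDiff_euclidean.1 hW) i).differentiable (by simp)

lemma continuous_L (c : Coef N) {φ : E N → ℝ} (hφ : ContDiff ℝ ∞ φ) : Continuous (c.L φ) := by
  have hW : ContDiff ℝ ∞ (fun y => c.A y (gradient φ y)) :=
    c.smoothA.clm_apply (contDiff_gradient hφ)
  unfold Coef.L
  apply continuous_finsetSum
  intro i _
  exact (((contDiff_euclidean.1 hW) i).continuous_fderiv (by simp)).clm_apply continuous_const

lemma L_const_mul (c : Coef N) {φ : E N → ℝ} (hφ : ContDiff ℝ ∞ φ) (a : ℝ) (x : E N) :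
    c.L (fun y => a * φ y) x = a * c.L φ x := by
  unfold Coef.L
  rw [Finset.mul_sum]
  apply Finset.sum_congr rfl
  intro i _
  have hg : ∀ y, gradient (fun y => a * φ y) y = a • gradient φ y := by
    intro y
    ext j
    rw [gradient_apply, fderiv_const_mul (hφ.differentiable (by simp)).differentiableAt,
      PiLp.smul_apply, gradient_apply]
    rfl
  have he : (fun y => (c.A y (gradient (fun y => a * φ y) y)) i) =
      fun y => a * (c.A y (gradient φ y)) i := by
    ext y
    rw [hg, map_smul, PiLp.smul_apply, smul_eq_mul]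
  rw [he, fderiv_const_mul (differentiable_flux c hφ i).differentiableAt]
  rfl

lemma L_zero_off (c : Coef N) {φ : E N → ℝ} {x : E N} (hx : x ∉ tsupport φ) :
    c.L φ x = 0 := by
  unfold Coef.L
  apply Finset.sum_eq_zero
  intro i _
  have h1 : (fun y => (c.A y (gradient φ y)) i) =ᶠ[𝓝 x] fun _ => 0 := by
    filter_upwards [(isClosed_tsupport φ).isOpen_compl.mem_nhds hx] with y hy
    have h2 : gradient φ y = 0 := by
      have h3 : fderiv ℝ φ y = 0 := by
        have h4 : φ =ᶠ[𝓝 y] fun _ => 0 := by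
          filter_upwards [(isClosed_tsupport φ).isOpen_compl.mem_nhds hy] with z hz
          exact image_eq_zero_of_notMem_tsupport hz
        rw [h4.fderiv_eq]
        simp
      unfold gradient
      rw [h3, map_zero]
    rw [h2, map_zero]
    rfl
  rw [h1.fderiv_eq]
  simp

lemma integrable_mul_test {F g : ℝ → ℝ} (hF : ContinuousOn F (Ioi 0)) (hg : Continuous g)
    (hgc : HasCompactSupport g) {T : ℝ} (hgs : tsupport g ⊆ Ioo 0 T) :
    Integrable (fun r => F r * g r) := by
  have h1 : Continuous (fun r => F r * g r) := by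
    rw [continuous_iff_continuousAt]
    intro r
    by_cases hr : r ∈ tsupport g
    · exact (hF.continuousAt (Ioi_mem_nhds (hgs hr).1)).mul hg.continuousAt
    · have h2 : (fun r => F r * g r) =ᶠ[𝓝 r] fun _ => 0 := by
        filter_upwards [(isClosed_tsupport g).isOpen_compl.mem_nhds hr] with q hq
        rw [image_eq_zero_of_notMem_tsupport hq, mul_zero]
      exact continuousAt_const.congr h2.symm
  exact h1.integrable_of_hasCompactSupport hgc.mul_left

section Main

variable {m p : ℝ} {u₀ : E N → ℝ} {u : ℝ → E N → ℝ}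

lemma slice_cont (hu : ContinuousOn (fun q : ℝ × E N => u q.1 q.2) (Ioi 0 ×ˢ univ)) {r : ℝ}
    (hr : 0 < r) : Continuous (u r) := by
  have h1 : Continuous (fun x : E N => ((r, x) : ℝ × E N)) := by fun_prop
  have h2 := hu.comp_continuous h1 (fun x => ⟨hr, mem_univ _⟩)
  exact h2

lemma swap {f : ℝ → E N → ℝ} {k : Set (E N)} (hk : IsCompact k) {s t : ℝ} (hst : s ≤ t)
    (hf : ContinuousOn (Function.uncurry f) (Icc s t ×ˢ univ))
    (hfs : ∀ r ∈ Icc s t, ∀ x, x ∉ k → f r x = 0) :
    ∫ r in s..t, ∫ x, f r x = ∫ x, ∫ r in s..t, f r x := by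
  apply intervalIntegral_integral_swap
  rw [uIoc_of_le hst, ← Measure.restrict_univ (μ := (volume : Measure (E N))),
    Measure.prod_restrict]
  have h1 : IntegrableOn (Function.uncurry f) (Icc s t ×ˢ k) (volume.prod volume) :=
    (hf.mono (prod_mono le_rfl (subset_univ _))).integrableOn_compact (isCompact_Icc.prod hk)
  have h2 : IntegrableOn (Function.uncurry f) (Ioc s t ×ˢ univ) (volume.prod volume) := by
    apply h1.of_forall_sdiff_eq_zero (measurableSet_Ioc.prod MeasurableSet.univ)
    rintro ⟨r, x⟩ ⟨h3, h4⟩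
    have h5 : r ∈ Icc s t := Ioc_subset_Icc_self h3.1
    exact hfs r h5 x fun h6 => h4 ⟨h5, h6⟩
  exact h2

theorem veryWeak (hc : IsCoefOf c M) (hm : 0 < m) (hp : 0 < p)
    (hsol : M.IsGlobalSolution m p u₀ u) {t₀ t₁ : ℝ} (ht₀ : 0 < t₀) :
    VeryWeak c m p u t₀ t₁ := by
  intro s t hs hst ht φ hφ hφc
  have hs0 : 0 < s := ht₀.trans_le hs
  have hwc : Continuous c.w := c.smoothw.continuous
  have hLc := continuous_L c hφ
  have hLs : ∀ x, x ∉ tsupport φ → c.L φ x = 0 := fun x hx => L_zero_off c hx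
  have hLcs : HasCompactSupport (c.L φ) := HasCompactSupport.intro hφc hLs
  have hφ0 : ∀ x, x ∉ tsupport φ → φ x = 0 := fun x hx => image_eq_zero_of_notMem_tsupport hx
  have hcont := hsol.cont
  have hnn := hsol.nonneg
  have hsnd : ∀ {g : E N → ℝ}, Continuous g →
      ContinuousOn (fun q : ℝ × E N => g q.2) (Ioi 0 ×ˢ univ) := fun {g} hg =>
    (hg.comp continuous_snd).continuousOn
  have hupow : ∀ {q : ℝ}, 0 < q →
      ContinuousOn (fun z : ℝ × E N => u z.1 z.2 ^ q) (Ioi 0 ×ˢ univ) := fun {q} hq =>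
    hcont.rpow_const fun _ _ => Or.inr hq.le
  -- the three space integrals
  have cU : ContinuousOn (fun r => ∫ x, c.w x * u r x * φ x) (Ioi 0) := by
    apply continuousOn_integral_of_compact_support hφc
    · exact ((hsnd hwc).mul hcont).mul (hsnd hφ.continuous)
    · intro r x _ hx
      rw [hφ0 x hx, mul_zero]
  have cA' : ContinuousOn (Function.uncurry fun r x => u r x ^ m * c.L φ x) (Ioi 0 ×ˢ univ) :=
    (hupow hm).mul (hsnd hLc)
  have cA : ContinuousOn (fun r => ∫ x, u r x ^ m * c.L φ x) (Ioi 0) := by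
    apply continuousOn_integral_of_compact_support hφc cA'
    intro r x _ hx
    rw [hLs x hx, mul_zero]
  have cB' : ContinuousOn (Function.uncurry fun r x => c.w x * u r x ^ p * φ x)
      (Ioi 0 ×ˢ univ) := ((hsnd hwc).mul (hupow hp)).mul (hsnd hφ.continuous)
  have cB : ContinuousOn (fun r => ∫ x, c.w x * u r x ^ p * φ x) (Ioi 0) := by
    apply continuousOn_integral_of_compact_support hφc cB'
    intro r x _ hx
    rw [hφ0 x hx, mul_zero]
  have hone := oneD (U := fun r => ∫ x, c.w x * u r x * φ x)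
    (V := fun r => (∫ x, u r x ^ m * c.L φ x) + ∫ x, c.w x * u r x ^ p * φ x)
    cU (cA.add cB) (by
      intro T hT χ hχ hχc hχs
      have h1 : ContDiff ℝ ∞ (Function.uncurry fun r x => χ r * φ x) :=
        (hχ.comp contDiff_fst).mul (hφ.comp contDiff_snd)
      have h2 : HasCompactSupport (Function.uncurry fun r x => χ r * φ x) := by
        apply HasCompactSupport.intro (hχc.isCompact.prod hφc.isCompact)
        rintro ⟨r, x⟩ hrx
        show χ r * φ x = 0
        by_cases hr : r ∈ tsupport χ
        · have hx : x ∉ tsupport φ := fun hx => hrx ⟨hr, hx⟩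
          rw [hφ0 x hx, mul_zero]
        · rw [image_eq_zero_of_notMem_tsupport hr, zero_mul]
      have hχT : χ T = 0 := image_eq_zero_of_notMem_tsupport fun h => lt_irrefl _ (hχs h).2
      have hχ0 : χ 0 = 0 := image_eq_zero_of_notMem_tsupport fun h => lt_irrefl _ (hχs h).1
      have h3 := hsol.weak T hT (fun r x => χ r * φ x) h1 h2 (fun x => by rw [hχT, zero_mul])
      have e1 : ∀ r, ∫ x, u r x * deriv (fun s => χ s * φ x) r ∂M.vol =
          (∫ x, c.w x * u r x * φ x) * deriv χ r := by
        intro r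
        rw [integral_vol hc, ← integral_mul_const]
        congr 1
        ext x
        rw [deriv_mul_const (hχ.differentiable (by simp)).differentiableAt]
        ring
      have e2 : ∀ r, ∫ x, u r x ^ m * M.lap ((fun r x => χ r * φ x) r) x ∂M.vol =
          (∫ x, u r x ^ m * c.L φ x) * χ r := by
        intro r
        rw [integral_vol hc, ← integral_mul_const]
        congr 1
        ext x
        have := w_lap hc (fun x => χ r * φ x) x
        rw [L_const_mul c hφ] at this
        calc c.w x * (u r x ^ m * M.lap (fun x => χ r * φ x) x)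
            = u r x ^ m * (c.w x * M.lap (fun x => χ r * φ x) x) := by ring
          _ = _ := by rw [this]; ring
      have e3 : ∀ r, ∫ x, u r x ^ p * (fun r x => χ r * φ x) r x ∂M.vol =
          (∫ x, c.w x * u r x ^ p * φ x) * χ r := by
        intro r
        rw [integral_vol hc, ← integral_mul_const]
        congr 1
        ext x
        ring
      have e4 : ∫ x, u₀ x * (fun r x => χ r * φ x) 0 x ∂M.vol = 0 := by
        simp [hχ0]
      rw [e4, add_zero] at h3
      simp only [e1, e2, e3] at h3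
      rw [h3, ← integral_add (integrable_mul_test cA hχ.continuous hχc hχs).integrableOn
        (integrable_mul_test cB hχ.continuous hχc hχs).integrableOn]
      congr 1
      ext r
      ring) hs0 hst
  -- conclusion
  have hsub : uIcc s t ⊆ Ioi 0 := by
    intro r hr
    rw [uIcc_of_le hst.le] at hr
    exact hs0.trans_le hr.1
  have hsub2 : Icc s t ×ˢ (univ : Set (E N)) ⊆ Ioi 0 ×ˢ univ := by
    rintro ⟨r, x⟩ ⟨hr, _⟩
    exact ⟨hs0.trans_le hr.1, mem_univ _⟩
  have iU : ∀ r, 0 < r → Integrable (fun x => c.w x * u r x * φ x) := fun r hr =>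
    ((hwc.mul (slice_cont hcont hr)).mul hφ.continuous).integrable_of_hasCompactSupport
      hφc.mul_left
  have l1 : ∫ x, c.w x * (u t x - u s x) * φ x =
      (∫ x, c.w x * u t x * φ x) - ∫ x, c.w x * u s x * φ x := by
    rw [← integral_sub (iU t (hs0.trans hst)) (iU s hs0)]
    congr 1
    ext x
    ring
  have l2 : ∫ r in s..t, ((∫ x, u r x ^ m * c.L φ x) + ∫ x, c.w x * u r x ^ p * φ x) =
      (∫ r in s..t, ∫ x, u r x ^ m * c.L φ x) + ∫ r in s..t, ∫ x, c.w x * u r x ^ p * φ x :=
    intervalIntegral.integral_add (cA.mono hsub).intervalIntegrable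
      (cB.mono hsub).intervalIntegrable
  rw [l1, hone, l2, swap hφc.isCompact hst.le (cA'.mono hsub2)
    (fun r _ x hx => by rw [hLs x hx, mul_zero]),
    swap hφc.isCompact hst.le (cB'.mono hsub2) (fun r _ x hx => by rw [hφ0 x hx, mul_zero])]
  congr 1
  · congr 1
    ext x
    rw [intervalIntegral.integral_mul_const]
  · congr 1
    ext x
    rw [intervalIntegral.integral_mul_const, intervalIntegral.integral_const_mul]

theorem nontrivial (hc : IsCoefOf c M) (hm : 1 < m) (hp : 1 < p)
    (hu₀ : MemLp u₀ (ENNReal.ofReal m) M.vol)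
    (hsol : M.IsGlobalSolution m p u₀ u) (hne : ¬ (u₀ =ᵐ[M.vol] 0)) :
    ∃ t > 0, ∃ x, 0 < u t x := by
  by_contra hcon
  push Not at hcon
  have hz : ∀ t, 0 < t → ∀ x, u t x = 0 := fun t ht x => le_antisymm (hcon t ht x) (hsol.nonneg t ht x)
  apply hne
  have hloc : IsLocallyFiniteMeasure M.vol := by
    rw [vol_eq hc]
    exact IsLocallyFiniteMeasure.withDensity_ofReal c.smoothw.continuous
  have hli : LocallyIntegrable u₀ M.vol := by
    apply hu₀.locallyIntegrable
    rw [← ENNReal.ofReal_one]
    exact ENNReal.ofReal_le_ofReal hm.le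
  apply ae_eq_zero_of_integral_contDiff_smul_eq_zero hli
  intro φ hφ hφc
  -- a cutoff in time
  let f : ContDiffBump (0:ℝ) := ⟨1 / 4, 1 / 2, by norm_num, by norm_num⟩
  have hf0 : f 0 = 1 := f.one_of_mem_closedBall (by
    rw [Metric.mem_closedBall, dist_self]
    exact f.rIn_pos.le)
  have hf1 : f 1 = 0 := f.zero_of_le_dist (by
    have : f.rOut = 1 / 2 := rfl
    rw [this]
    norm_num)
  have hφ0 : ∀ x, x ∉ tsupport φ → φ x = 0 := fun x hx => image_eq_zero_of_notMem_tsupport hx
  have h1 : ContDiff ℝ ∞ (Function.uncurry fun (r : ℝ) x => f r * φ x) :=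
    (f.contDiff.comp contDiff_fst).mul (hφ.comp contDiff_snd)
  have h2 : HasCompactSupport (Function.uncurry fun (r : ℝ) x => f r * φ x) := by
    apply HasCompactSupport.intro (f.hasCompactSupport.isCompact.prod hφc.isCompact)
    rintro ⟨r, x⟩ hrx
    show f r * φ x = 0
    by_cases hr : r ∈ tsupport f
    · have hx : x ∉ tsupport φ := fun hx => hrx ⟨hr, hx⟩
      rw [hφ0 x hx, mul_zero]
    · rw [image_eq_zero_of_notMem_tsupport hr, zero_mul]
  have h3 := hsol.weak 1 one_pos (fun r x => f r * φ x) h1 h2 (fun x => by rw [hf1, zero_mul])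
  have e1 : ∫ t in Ioo (0:ℝ) 1, ∫ x, u t x * deriv (fun s => (fun r x => f r * φ x) s x) t ∂M.vol
      = 0 := by
    rw [setIntegral_congr_fun (g := fun _ => (0:ℝ)) measurableSet_Ioo]
    · simp
    · intro t ht
      simp only [hz t ht.1, zero_mul, integral_zero]
  have e2 : ∫ t in Ioo (0:ℝ) 1, ∫ x, u t x ^ m * M.lap ((fun r x => f r * φ x) t) x ∂M.vol
      = 0 := by
    rw [setIntegral_congr_fun (g := fun _ => (0:ℝ)) measurableSet_Ioo]
    · simp
    · intro t ht
      have hm0 : m ≠ 0 := by linarith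
      simp only [hz t ht.1, Real.zero_rpow hm0, zero_mul, integral_zero]
  have e3 : ∫ t in Ioo (0:ℝ) 1, ∫ x, u t x ^ p * (fun r x => f r * φ x) t x ∂M.vol
      = 0 := by
    rw [setIntegral_congr_fun (g := fun _ => (0:ℝ)) measurableSet_Ioo]
    · simp
    · intro t ht
      have hp0 : p ≠ 0 := by linarith
      simp only [hz t ht.1, Real.zero_rpow hp0, zero_mul, integral_zero]
  rw [e1, e2, e3] at h3
  simp only [neg_zero, zero_add, hf0, one_mul] at h3
  rw [h3]
  congr 1
  ext x
  rw [smul_eq_mul, mul_comm]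

end Main

end TInc

open TInc in
theorem stmt_T : Stmt_T := by
  intro N M c hc m p hp hpm u₀ u hu₀ hsol
  have hm : 1 < m := hp.trans hpm
  exact ⟨fun t₀ t₁ ht₀ _ => veryWeak hc (by linarith) (by linarith) hsol ht₀,
    fun hne => nontrivial hc hm hp hu₀ hsol hne⟩

end Pool.Agent.MP909527
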